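import Mathlib

/-! Exit sets of words, and the averaged isoperimetric inequality with halved word lengths. -/

set_option autoImplicit false

namespace Pool.Agent.FS.FolSum

variable {G : Type} [Group G]

open Classical in
/-- points of `D` moved out of `D` by `g` -/
noncomputable def exitSet (D : Finset G) (g : G) : Finset G := D.filter fun x => g * x ∉ D

open Classical in
theorem card_exit_inv (D : Finset G) (g : G) : (exitSet D g⁻¹).card = (exitSet D g).card := by
  have h1 : ∀ g : G, (D.filter fun x => g * x ∈ D).card + (exitSet D g).card = D.card := by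
    intro g
    unfold exitSet
    exact Finset.card_filter_add_card_filter_not _
  have h2 : (D.filter fun x => g⁻¹ * x ∈ D).card = (D.filter fun x => g * x ∈ D).card := by
    refine Finset.card_bij (fun x _ => g⁻¹ * x) ?_ ?_ ?_
    · intro x hx
      simp only [Finset.mem_filter] at hx ⊢
      exact ⟨hx.2, by simpa using hx.1⟩
    · intro x _ y _ h
      simpa using h
    · intro y hy
      simp only [Finset.mem_filter] at hy
      exact ⟨g * y, by simp [hy.1, hy.2], by simp⟩
  have := h1 g
  have := h1 g⁻¹
  omega

open Classical in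
theorem card_exit_mul (D : Finset G) (g h : G) :
    (exitSet D (g * h)).card ≤ (exitSet D g).card + (exitSet D h).card := by
  have h1 : exitSet D (g * h) ⊆ (exitSet D g).image (fun y => h⁻¹ * y) ∪ exitSet D h := by
    intro x hx
    simp only [exitSet, Finset.mem_filter, Finset.mem_union, Finset.mem_image] at hx ⊢
    by_cases hh : h * x ∈ D
    · left
      exact ⟨h * x, ⟨hh, by simpa [mul_assoc] using hx.2⟩, by simp⟩
    · right
      exact ⟨hx.1, hh⟩
  have h2 := Finset.card_le_card h1
  have h3 := Finset.card_union_le ((exitSet D g).image (fun y => h⁻¹ * y)) (exitSet D h)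
  have h4 : ((exitSet D g).image (fun y => h⁻¹ * y)).card ≤ (exitSet D g).card :=
    Finset.card_image_le
  omega

open Classical in
/-- the inner boundary as a finite set -/
noncomputable def bd (S D : Finset G) : Finset G := D.filter fun x => ∃ s ∈ S, s * x ∉ D

theorem exit_subset_bd {S : Finset G} (D : Finset G) {s : G} (h : s ∈ S) :
    exitSet D s ⊆ bd S D := by
  intro x hx
  simp only [exitSet, bd, Finset.mem_filter] at hx ⊢
  exact ⟨hx.1, s, h, hx.2⟩

open Classical in
theorem card_exit_two {S : Finset G} (hs : ∀ s ∈ S, s⁻¹ ∈ S) (D : Finset G) {s t : G}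
    (h1 : s ∈ S) (h2 : t ∈ S) : (exitSet D (s * t)).card ≤ (bd S D).card := by
  have h3 : exitSet D (s * t) ⊆
      (bd S D \ exitSet D t⁻¹).image (fun y => t⁻¹ * y) ∪ exitSet D t := by
    intro x hx
    simp only [exitSet, bd, Finset.mem_filter, Finset.mem_union, Finset.mem_image,
      Finset.mem_sdiff] at hx ⊢
    by_cases hh : t * x ∈ D
    · left
      refine ⟨t * x, ⟨⟨hh, s, h1, by simpa [mul_assoc] using hx.2⟩, ?_⟩, by simp⟩
      simp [hx.1]
    · right
      exact ⟨hx.1, hh⟩
  have h4 : exitSet D t⁻¹ ⊆ bd S D := exit_subset_bd D (hs t h2)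
  have h5 := Finset.card_sdiff_add_card_eq_card h4
  have h6 := card_exit_inv D t
  have h7 := Finset.card_le_card h3
  have h8 := Finset.card_union_le ((bd S D \ exitSet D t⁻¹).image (fun y => t⁻¹ * y)) (exitSet D t)
  have h9 : ((bd S D \ exitSet D t⁻¹).image (fun y => t⁻¹ * y)).card ≤
      (bd S D \ exitSet D t⁻¹).card := Finset.card_image_le
  omega

theorem card_exit_word {S : Finset G} (hs : ∀ s ∈ S, s⁻¹ ∈ S) (D : Finset G) (k : ℕ) :
    ∀ l : List G, l.length ≤ 2 * k → (∀ s ∈ l, s ∈ S) →
      (exitSet D l.prod).card ≤ k * (bd S D).card := by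
  have h0 : exitSet D (1 : G) = ∅ := by
    ext x
    simp [exitSet]
  induction k with
  | zero =>
    intro l hl _
    have : l = [] := List.length_eq_zero_iff.1 (by omega)
    subst this
    simp [h0]
  | succ k ih =>
    intro l hl hS
    match l, hl, hS with
    | [], _, _ => simp [h0]
    | [s], _, hS =>
      have := Finset.card_le_card (exit_subset_bd D (hS s (by simp)))
      simp only [List.prod_cons, List.prod_nil, mul_one]
      nlinarith
    | s :: t :: m, hl, hS =>
      have h1 := card_exit_two hs D (hS s (by simp)) (hS t (by simp))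
      have h2 := ih m (by simp only [List.length_cons] at hl; omega)
        (fun u hu => hS u (by simp [hu]))
      have h3 := card_exit_mul D (s * t) m.prod
      simp only [List.prod_cons, ← mul_assoc]
      nlinarith

/-- The ball of radius `r`. -/
def ball (S : Finset G) (r : ℕ) : Set G :=
  {x : G | ∃ l : List G, l.length ≤ r ∧ (∀ s ∈ l, s ∈ S) ∧ l.prod = x}

theorem ball_finite (S : Finset G) (r : ℕ) : (ball S r).Finite := by
  have h1 : {l : List S | l.length ≤ r}.Finite := List.finite_length_le S r
  refine (h1.image fun l => (l.map Subtype.val).prod).subset ?_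
  rintro x ⟨l, h1, h2, h3⟩
  refine ⟨l.attach.map fun s => ⟨s.1, h2 s.1 s.2⟩, by simpa using h1, ?_⟩
  simp only [List.map_map]
  rw [← h3]
  congr 1
  simp [Function.comp_def]

theorem ball_mono (S : Finset G) {r r' : ℕ} (h : r ≤ r') : ball S r ⊆ ball S r' := by
  rintro x ⟨l, h1, h2, h3⟩
  exact ⟨l, h1.trans h, h2, h3⟩

/-- The ball as a finite set. -/
noncomputable def fb (S : Finset G) (r : ℕ) : Finset G := (ball_finite S r).toFinset

theorem fb_card (S : Finset G) (r : ℕ) : (ball S r).ncard = (fb S r).card :=
  Set.ncard_eq_toFinset_card _ (ball_finite S r)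

theorem sum_exit {S : Finset G} (hs : ∀ s ∈ S, s⁻¹ ∈ S) (D : Finset G) (k : ℕ) :
    ∑ g ∈ fb S (2 * k), (exitSet D g).card +
        (bd S D).card * ∑ j ∈ Finset.range k, (fb S (2 * j)).card ≤
      k * (fb S (2 * k)).card * (bd S D).card := by
  classical
  have hw : ∀ m, ∀ g ∈ fb S (2 * m), (exitSet D g).card ≤ m * (bd S D).card := by
    intro m g hg
    obtain ⟨l, h1, h2, rfl⟩ := (Set.Finite.mem_toFinset _).1 hg
    exact card_exit_word hs D m l h1 h2
  induction k with
  | zero =>
    have : ∑ g ∈ fb S (2 * 0), (exitSet D g).card = 0 :=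
      Finset.sum_eq_zero fun g hg => by simpa using hw 0 g hg
    rw [this]
    simp
  | succ k ih =>
    have hsub : fb S (2 * k) ⊆ fb S (2 * (k + 1)) := fun g hg =>
      (Set.Finite.mem_toFinset _).2 (ball_mono S (by omega) ((Set.Finite.mem_toFinset _).1 hg))
    have h1 := Finset.sum_sdiff (f := fun g => (exitSet D g).card) hsub
    have h2 := Finset.card_sdiff_add_card_eq_card hsub
    have h3 : ∑ g ∈ fb S (2 * (k + 1)) \ fb S (2 * k), (exitSet D g).card ≤
        (fb S (2 * (k + 1)) \ fb S (2 * k)).card * ((k + 1) * (bd S D).card) := by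
      calc _ ≤ ∑ _g ∈ fb S (2 * (k + 1)) \ fb S (2 * k), (k + 1) * (bd S D).card :=
            Finset.sum_le_sum fun g hg => hw (k + 1) g (Finset.mem_sdiff.1 hg).1
        _ = _ := by simp
    rw [Finset.sum_range_succ, ← h1, ← h2]
    nlinarith

open Classical in
theorem averaging (D B : Finset G) :
    B.card * D.card ≤ D.card * D.card + ∑ g ∈ B, (exitSet D g).card := by
  have h1 : ∀ g : G, (D.filter fun x => g * x ∈ D).card + (exitSet D g).card = D.card := by
    intro g
    unfold exitSet
    exact Finset.card_filter_add_card_filter_not _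
  have h2 : ∑ g ∈ B, (D.filter fun x => g * x ∈ D).card ≤ D.card * D.card := by
    have : ∑ g ∈ B, (D.filter fun x => g * x ∈ D).card
        = ∑ x ∈ D, (B.filter fun g => g * x ∈ D).card := by
      simp only [Finset.card_filter]
      exact Finset.sum_comm
    rw [this]
    have h3 : ∀ x ∈ D, (B.filter fun g => g * x ∈ D).card ≤ D.card := by
      intro x _
      refine Finset.card_le_card_of_injOn (fun g => g * x) ?_ ?_
      · intro g hg
        simp only [Finset.coe_filter, Set.mem_ofPred_eq] at hg
        exact hg.2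
      · intro g _ g' _ hh
        simpa using hh
    calc _ ≤ ∑ _x ∈ D, D.card := Finset.sum_le_sum h3
      _ = _ := by simp
  have h4 : ∑ g ∈ B, ((D.filter fun x => g * x ∈ D).card + (exitSet D g).card)
      = B.card * D.card := by
    simp [h1]
  rw [Finset.sum_add_distrib] at h4
  omega

theorem main {S : Finset G} (hs : ∀ s ∈ S, s⁻¹ ∈ S) (k : ℕ) (D : Finset G) (hD : D.Nonempty)
    (h : (k + 1) * (bd S D).card ≤ D.card) :
    ∑ j ∈ Finset.range (k + 1), (fb S (2 * j)).card ≤ (k + 1) * D.card := by
  have h1 := sum_exit hs D k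
  have h2 := averaging D (fb S (2 * k))
  have h3 : ∑ j ∈ Finset.range k, (fb S (2 * j)).card ≤ k * (fb S (2 * k)).card := by
    calc _ ≤ ∑ _j ∈ Finset.range k, (fb S (2 * k)).card :=
          Finset.sum_le_sum fun j hj => Finset.card_le_card fun g hg =>
            (Set.Finite.mem_toFinset _).2 (ball_mono S (by have := Finset.mem_range.1 hj; omega)
              ((Set.Finite.mem_toFinset _).1 hg))
      _ = _ := by simp
  rw [Finset.sum_range_succ]
  have hpos : 0 < D.card := hD.card_pos
  generalize ∑ j ∈ Finset.range k, (fb S (2 * j)).card = σ at *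
  generalize ∑ g ∈ fb S (2 * k), (exitSet D g).card = x at *
  generalize (fb S (2 * k)).card = b at *
  generalize (bd S D).card = e at *
  generalize D.card = d at *
  obtain ⟨w, hw⟩ := Nat.exists_eq_add_of_le h3
  have h4 : x ≤ w * e := by
    have : k * b * e = e * σ + w * e := by rw [hw]; ring
    omega
  have h5 : (k + 1) * x ≤ w * d := by
    calc (k + 1) * x ≤ (k + 1) * (w * e) := Nat.mul_le_mul_left _ h4
      _ = w * ((k + 1) * e) := by ring
      _ ≤ w * d := Nat.mul_le_mul_left _ h
  have h6 : (σ + b) * d ≤ (k + 1) * d * d := by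
    have h7 : (k + 1) * (b * d) ≤ (k + 1) * (d * d + x) := Nat.mul_le_mul_left _ h2
    have h8 : (k + 1) * (b * d) = (σ + b) * d + w * d := by
      calc (k + 1) * (b * d) = (k * b + b) * d := by ring
        _ = (σ + w + b) * d := by rw [hw]
        _ = _ := by ring
    have h9 : (k + 1) * (d * d + x) = (k + 1) * d * d + (k + 1) * x := by ring
    omega
  exact Nat.le_of_mul_le_mul_right h6 hpos

end Pool.Agent.FS.FolSum
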